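import Pool.Agent.H40.Sob

open Pool.Agent.H40.Sob in
theorem Pool.Agent.Results.MP_c54df4_lc.NoDivisor.result :
    ∀ X : Type, ∃ (I : Type) (W : Ultrafilter I), Enl W X ∧ Enl W ℕ+ ∧
      ∃ F G : Ultrafilter ℕ+, TDvd F G ∧ ∃ y ∈ Monad W G, ∀ x ∈ Monad W F, ¬ SDvd W x y :=
  divi
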